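import Pool.Agent.Helper92.MM.Defs
import Pool.Agent.Helper22.AE.E0
import Pool.Agent.Helper22.AE.D2

/-!
# MM-M4: `no_coll` and `pair_osc`
-/

open MeasureTheory Real Set Filter Topology

set_option autoImplicit false

namespace Pool.Agent.Helper8.MM

open Pool.Agent.Helper22.AE
open Pool.Agent.Helper60.AD
open Pool.Agent.Helper92.MM

/-- the only pairs of tuples in separated arcs with all moments tiny are the diagonal ones (AE.D2 `collisions`, `η = τ^(2J) / (200 J 4^J)`,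
so `ρ ≤ 1/8` and `(2ρ+1)² < 2`; the tuple `k` itself is one of them) -/
theorem no_coll {J n : ℕ} (hJ : 2 ≤ J) {τ : ℝ} (hτ : 0 < τ) (hτ1 : τ ≤ 1) (A : Fin J → Finset (ℤ × ℤ))
    (hA : ∀ i, ∀ k ∈ A i, (2 : ℝ) ^ n ≤ nk k ∧ nk k ≤ 2 ^ (n + 1))
    (hs : ∀ i j, i ≠ j → ∀ k ∈ A i, ∀ k' ∈ A j, τ ≤ ‖zk k - zk k'‖) :
    ∀ k ∈ Fintype.piFinset A, ∀ k' ∈ Fintype.piFinset A, k ≠ k' → ∃ l < 2 * J, τ ^ (2 * J) / (200 * J * 4 ^ J) < ‖Mom k k' l‖ := by
  classical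
  intro k hk k' hk' hne
  by_contra hcon
  push Not at hcon
  set η : ℝ := τ ^ (2 * J) / (200 * J * 4 ^ J) with hη
  have hJ0 : (0 : ℝ) < J := by exact_mod_cast (by omega : 0 < J)
  have hη0 : 0 < η := by rw [hη]; positivity
  have e1 : (J : ℝ) * 4 ^ J * η = τ ^ (2 * J) / 200 := by
    rw [hη]
    field_simp
  have hτe : τ ^ (2 * J) = τ ^ (2 * J - 1) * τ := by
    rw [← pow_succ]
    congr 1
    omega
  have hp0 : 0 < τ ^ (2 * J) := by positivity
  have hp1 : 0 < τ ^ (2 * J - 1) := by positivity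
  have hle1 : τ ^ (2 * J) ≤ τ ^ (2 * J - 1) := pow_le_pow_of_le_one hτ.le hτ1 (by omega)
  have hle3 : τ ^ (2 * J) ≤ τ ^ (2 * J - 3) := pow_le_pow_of_le_one hτ.le hτ1 (by omega)
  have h2n : (1 : ℝ) ≤ 2 ^ n := one_le_pow₀ (by norm_num)
  have h1 : (J : ℝ) * 4 ^ J * (2 * η) ≤ 2 ^ n * τ ^ (2 * J - 1) := by
    have e2 : (J : ℝ) * 4 ^ J * (2 * η) = 2 * (J * 4 ^ J * η) := by ring
    rw [e2, e1]
    have h3 := mul_le_mul_of_nonneg_right h2n hp1.le
    linarith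
  have h2 : 50 * (J : ℝ) * 4 ^ J * η < τ ^ (2 * J - 3) := by
    have e2 : 50 * (J : ℝ) * 4 ^ J * η = 50 * (J * 4 ^ J * η) := by ring
    rw [e2, e1]
    linarith
  have hc := collisions (n := n) hJ hη0 hτ hτ1 A hA hs h1 h2 k hk
  have e3 : 25 * (J : ℝ) * 4 ^ J * η / τ ^ (2 * J - 1) = τ / 8 := by
    have e2 : 25 * (J : ℝ) * 4 ^ J * η = 25 * (J * 4 ^ J * η) := by ring
    rw [e2, e1, hτe]
    field_simp
    norm_num
  rw [e3] at hc
  have h5 : (2 * (τ / 8) + 1) ^ 2 < 2 := by nlinarith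
  have hcard : 2 ≤ ((Fintype.piFinset A).filter (fun k' => ∀ l < 2 * J, ‖Mom k k' l‖ ≤ η)).card := by
    have hsub : ({k, k'} : Finset (Fin J → ℤ × ℤ)) ⊆
        (Fintype.piFinset A).filter (fun k' => ∀ l < 2 * J, ‖Mom k k' l‖ ≤ η) := by
      intro q hq
      rw [Finset.mem_insert, Finset.mem_singleton] at hq
      rw [Finset.mem_filter]
      rcases hq with rfl | rfl
      · refine ⟨hk, fun l _ => ?_⟩
        have : Mom q q l = 0 := by
          unfold Mom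
          simp
        rw [this, norm_zero]
        exact hη0.le
      · exact ⟨hk', hcon⟩
    have h6 := Finset.card_le_card hsub
    rw [Finset.card_pair hne] at h6
    exact h6
  have h7 : (2 : ℝ) ≤ (((Fintype.piFinset A).filter (fun k' => ∀ l < 2 * J, ‖Mom k k' l‖ ≤ η)).card : ℝ) := by
    exact_mod_cast hcard
  linarith

/-- the phase difference is an affine function of the coefficients -/
private theorem Ph_lin {L J : ℕ} {H₀ : ℝ → ℝ} (h0 : ContDiff ℝ 2 H₀) (k k' : Fin J → ℤ × ℤ) (α : ℝ)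
    (w : (Fin L → ℝ) × (Fin L → ℝ)) :
    Ph (Hw H₀ w) k k' α = Ph H₀ k k' α +
      ∑ l : Fin L, (w.1 l * (cl l α * Mom k k' l).re + w.2 l * (cl l α * Mom k k' l).im) := by
  have hM : ∀ l : ℕ, cl l α * Mom k k' l =
      ∑ i, (((nk (k i) : ℝ) : ℂ) * (cl l α * zk (k i) ^ l) -
        ((nk (k' i) : ℝ) : ℂ) * (cl l α * zk (k' i) ^ l)) := by
    intro l
    unfold Mom
    rw [Finset.mul_sum]
    refine Finset.sum_congr rfl (fun i _ => ?_)
    ring
  have hre : ∀ l : ℕ, (cl l α * Mom k k' l).re =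
      ∑ i, (nk (k i) * (cl l α * zk (k i) ^ l).re - nk (k' i) * (cl l α * zk (k' i) ^ l).re) := by
    intro l
    rw [hM l, Complex.re_sum]
    refine Finset.sum_congr rfl (fun i _ => ?_)
    rw [Complex.sub_re, Complex.re_ofReal_mul, Complex.re_ofReal_mul]
  have him : ∀ l : ℕ, (cl l α * Mom k k' l).im =
      ∑ i, (nk (k i) * (cl l α * zk (k i) ^ l).im - nk (k' i) * (cl l α * zk (k' i) ^ l).im) := by
    intro l
    rw [hM l, Complex.im_sum]
    refine Finset.sum_congr rfl (fun i _ => ?_)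
    rw [Complex.sub_im, Complex.im_ofReal_mul, Complex.im_ofReal_mul]
  have h1 : ∀ l : Fin L, w.1 l * (cl l α * Mom k k' l).re + w.2 l * (cl l α * Mom k k' l).im =
      ∑ i, (nk (k i) * (w.1 l * (cl l α * zk (k i) ^ (l : ℕ)).re +
          w.2 l * (cl l α * zk (k i) ^ (l : ℕ)).im) -
        nk (k' i) * (w.1 l * (cl l α * zk (k' i) ^ (l : ℕ)).re +
          w.2 l * (cl l α * zk (k' i) ^ (l : ℕ)).im)) := by
    intro l
    rw [hre, him, Finset.mul_sum, Finset.mul_sum, ← Finset.sum_add_distrib]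
    refine Finset.sum_congr rfl (fun i _ => ?_)
    ring
  rw [Finset.sum_congr rfl (fun l _ => h1 l), Finset.sum_comm]
  have h2 : ∀ i, ∑ l : Fin L, (nk (k i) * (w.1 l * (cl l α * zk (k i) ^ (l : ℕ)).re +
          w.2 l * (cl l α * zk (k i) ^ (l : ℕ)).im) -
        nk (k' i) * (w.1 l * (cl l α * zk (k' i) ^ (l : ℕ)).re +
          w.2 l * (cl l α * zk (k' i) ^ (l : ℕ)).im)) =
      nk (k i) * lform (k i) α w - nk (k' i) * lform (k' i) α w := by
    intro i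
    unfold lform
    rw [Finset.sum_sub_distrib, ← Finset.mul_sum, ← Finset.mul_sum]
  rw [Finset.sum_congr rfl (fun i _ => h2 i), Finset.sum_sub_distrib]
  unfold Ph
  simp only [gph_Hw h0, mul_add, Finset.sum_add_distrib]
  ring

private theorem mean_le {L J : ℕ} (hJL : 2 * J ≤ L) {H₀ : ℝ → ℝ} (h0 : ContDiff ℝ 2 H₀) (k k' : Fin J → ℤ × ℤ) {η α : ℝ} (hη : 0 < η)
    (hα : 1 / 2 ≤ |cos α|) (hM : ∃ l < 2 * J, η < ‖Mom k k' l‖) (u : ℝ) :
    ‖∫ w : (Fin L → ℝ) × (Fin L → ℝ), ee (-(u * Ph (Hw H₀ w) k k' α)) ∂(gm L)‖ ≤ exp (-(π / 4 * η ^ 2) * u ^ 2) := by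
  have e : ∀ w : (Fin L → ℝ) × (Fin L → ℝ), ee (-(u * Ph (Hw H₀ w) k k' α)) = ee (-(u * Ph H₀ k k' α)) *
      ee (∑ l : Fin L, (w.1 l * (-u * (cl l α * Mom k k' l).re) + w.2 l * (-u * (cl l α * Mom k k' l).im))) := by
    intro w
    rw [Ph_lin h0, ← ee_add]
    congr 1
    rw [mul_add, neg_add, Finset.mul_sum, ← Finset.sum_neg_distrib]
    congr 1
    refine Finset.sum_congr rfl fun l _ => ?_
    ring
  simp only [e]
  rw [integral_const_mul, gm_char, norm_mul, ee_norm, one_mul, Complex.norm_real, Real.norm_eq_abs, abs_of_pos (exp_pos _)]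
  refine exp_le_exp.mpr ?_
  obtain ⟨l, hl, hM⟩ := hM
  obtain ⟨l', rfl⟩ : ∃ l' : Fin L, (l' : ℕ) = l := ⟨⟨l, lt_of_lt_of_le hl hJL⟩, rfl⟩
  clear hl
  have h1 : ∑ l : Fin L, (-u * (cl l α * Mom k k' l).re) ^ 2 +
      ∑ l : Fin L, (-u * (cl l α * Mom k k' l).im) ^ 2 =
      ∑ l : Fin L, (u ^ 2 * ‖cl l α * Mom k k' l‖ ^ 2) := by
    rw [← Finset.sum_add_distrib]
    refine Finset.sum_congr rfl (fun l _ => ?_)
    rw [← Complex.normSq_eq_norm_sq, Complex.normSq_apply]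
    ring
  have h2 : u ^ 2 * ‖cl l' α * Mom k k' l'‖ ^ 2 ≤
      ∑ l : Fin L, (u ^ 2 * ‖cl l α * Mom k k' l‖ ^ 2) :=
    Finset.single_le_sum (f := fun l : Fin L => u ^ 2 * ‖cl l α * Mom k k' l‖ ^ 2)
      (fun i _ => mul_nonneg (sq_nonneg _) (sq_nonneg _)) (Finset.mem_univ l')
  have h3 : 1 / 2 * η ≤ ‖cl l' α * Mom k k' l'‖ := by
    rw [norm_mul]
    exact mul_le_mul (hα.trans (cl_norm_ge l' α)) hM.le hη.le (norm_nonneg _)
  have h4 : (1 / 2 * η) ^ 2 ≤ ‖cl l' α * Mom k k' l'‖ ^ 2 :=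
    pow_le_pow_left₀ (by positivity) h3 2
  have h5 : u ^ 2 * (1 / 2 * η) ^ 2 ≤ u ^ 2 * ‖cl l' α * Mom k k' l'‖ ^ 2 :=
    mul_le_mul_of_nonneg_left h4 (sq_nonneg u)
  have h6 := mul_le_mul_of_nonneg_left (h5.trans h2) pi_pos.le
  rw [h1]
  linarith only [h6]

/-- the oscillatory integral of a nonresonant pair: second moment, `gm_char`: `E ≤ ∫∫ exp (-π (R - R')² σ²) ≤ ℓ/σ`, `σ ≥ η/2` -/
theorem pair_osc {L J : ℕ} (hJL : 2 * J ≤ L) {H₀ : ℝ → ℝ} (h0 : ContDiff ℝ 2 H₀) (k k' : Fin J → ℤ × ℤ) {η α : ℝ} (hη : 0 < η)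
    (hα : 1 / 2 ≤ |cos α|) (hM : ∃ l < 2 * J, η < ‖Mom k k' l‖) (a : ℝ) {ℓ : ℝ} (hℓ : 0 ≤ ℓ) :
    ∫ w : (Fin L → ℝ) × (Fin L → ℝ), ‖∫ R in Icc a (a + ℓ), ee (-(R * Ph (Hw H₀ w) k k' α))‖ ∂(gm L) ≤ sqrt (2 * ℓ / η) := by
  have hfin : IsFiniteMeasure (volume.restrict (Icc a (a + ℓ)) : Measure ℝ) :=
    ⟨by rw [Measure.restrict_apply_univ, Real.volume_Icc]; exact ENNReal.ofReal_lt_top⟩
  have hvol : (volume.restrict (Icc a (a + ℓ)) : Measure ℝ).real univ = ℓ := by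
    rw [Measure.real, Measure.restrict_apply_univ, Real.volume_Icc, ENNReal.toReal_ofReal (by linarith)]
    ring
  set μ := (volume.restrict (Icc a (a + ℓ)) : Measure ℝ) with hμ
  set P : (Fin L → ℝ) × (Fin L → ℝ) → ℝ := fun w => Ph (Hw H₀ w) k k' α with hP
  have hPc : Continuous P := by
    have e : P = fun w : (Fin L → ℝ) × (Fin L → ℝ) => Ph H₀ k k' α +
      ∑ l : Fin L, (w.1 l * (cl l α * Mom k k' l).re + w.2 l * (cl l α * Mom k k' l).im) := funext (Ph_lin h0 k k' α)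
    rw [e]
    fun_prop
  set X : (Fin L → ℝ) × (Fin L → ℝ) → ℂ := fun w => ∫ R, ee (-(R * P w)) ∂μ with hX
  have hXm : StronglyMeasurable X := by
    have hc : Continuous (fun q : ((Fin L → ℝ) × (Fin L → ℝ)) × ℝ => ee (-(q.2 * P q.1))) :=
      ee_cont.comp ((continuous_snd.mul (hPc.comp continuous_fst)).neg)
    exact hc.stronglyMeasurable.integral_prod_right'
  have hXb : ∀ w, ‖X w‖ ≤ ℓ := by
    intro w
    have h := norm_integral_le_of_norm_le_const (μ := μ) (f := fun R => ee (-(R * P w))) (C := 1)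
      (ae_of_all _ fun R => (ee_norm _).le)
    rw [hvol, one_mul] at h
    exact h
  have hsq : ∀ w, ((‖X w‖ ^ 2 : ℝ) : ℂ) = ∫ p : ℝ × ℝ, ee (-((p.1 - p.2) * P w)) ∂(μ.prod μ) := by
    intro w
    have e1 : ((‖X w‖ ^ 2 : ℝ) : ℂ) = X w * (starRingEnd ℂ) (X w) := by
      rw [Complex.mul_conj, Complex.normSq_eq_norm_sq]
    rw [e1]
    show (∫ R, ee (-(R * P w)) ∂μ) * (starRingEnd ℂ) (∫ R, ee (-(R * P w)) ∂μ) = _
    rw [← integral_conj, ← integral_prod_mul]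
    refine integral_congr_ae (ae_of_all _ fun p => ?_)
    show ee (-(p.1 * P w)) * (starRingEnd ℂ) (ee (-(p.2 * P w))) = ee (-((p.1 - p.2) * P w))
    rw [← ee_neg, ← ee_add]
    congr 1
    ring
  have hGi : Integrable (Function.uncurry fun (w : (Fin L → ℝ) × (Fin L → ℝ)) (p : ℝ × ℝ) => ee (-((p.1 - p.2) * P w)))
      ((gm L).prod (μ.prod μ)) := by
    have hc : Continuous (Function.uncurry fun (w : (Fin L → ℝ) × (Fin L → ℝ)) (p : ℝ × ℝ) => ee (-((p.1 - p.2) * P w))) := by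
      refine ee_cont.comp ?_
      show Continuous fun q : ((Fin L → ℝ) × (Fin L → ℝ)) × (ℝ × ℝ) => -((q.2.1 - q.2.2) * P q.1)
      have := hPc.comp (continuous_fst : Continuous fun q : ((Fin L → ℝ) × (Fin L → ℝ)) × (ℝ × ℝ) => q.1)
      exact (((continuous_fst.comp continuous_snd).sub (continuous_snd.comp continuous_snd)).mul this).neg
    exact Integrable.of_bound hc.aestronglyMeasurable 1 (ae_of_all _ fun q => (ee_norm _).le)
  have hint : ((∫ w, ‖X w‖ ^ 2 ∂(gm L) : ℝ) : ℂ) =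
      ∫ p : ℝ × ℝ, ∫ w, ee (-((p.1 - p.2) * P w)) ∂(gm L) ∂(μ.prod μ) := by
    rw [← integral_complex_ofReal, integral_congr_ae (ae_of_all _ hsq), integral_integral_swap hGi]
  have hb0 : 0 < π / 4 * η ^ 2 := by positivity
  have hEi : Integrable (fun p : ℝ × ℝ => exp (-(π / 4 * η ^ 2) * (p.1 - p.2) ^ 2)) (μ.prod μ) := by
    have hc : Continuous (fun p : ℝ × ℝ => exp (-(π / 4 * η ^ 2) * (p.1 - p.2) ^ 2)) := by fun_prop
    refine Integrable.of_bound hc.aestronglyMeasurable 1 (ae_of_all _ fun p => ?_)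
    rw [Real.norm_of_nonneg (exp_pos _).le, exp_le_one_iff]
    have := mul_nonneg hb0.le (sq_nonneg (p.1 - p.2))
    linarith
  have hin : ∀ x : ℝ, ∫ y, exp (-(π / 4 * η ^ 2) * (x - y) ^ 2) ∂μ ≤ 2 / η := by
    intro x
    have hi : Integrable (fun y : ℝ => exp (-(π / 4 * η ^ 2) * (x - y) ^ 2)) :=
      (integrable_exp_neg_mul_sq hb0).comp_sub_left x
    calc ∫ y, exp (-(π / 4 * η ^ 2) * (x - y) ^ 2) ∂μ ≤ ∫ y, exp (-(π / 4 * η ^ 2) * (x - y) ^ 2) :=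
          setIntegral_le_integral hi (ae_of_all _ fun y => (exp_pos _).le)
      _ = ∫ y, exp (-(π / 4 * η ^ 2) * y ^ 2) :=
          integral_sub_left_eq_self (fun y => exp (-(π / 4 * η ^ 2) * y ^ 2)) volume x
      _ = sqrt (π / (π / 4 * η ^ 2)) := integral_gaussian _
      _ = 2 / η := by
          have e : π / (π / 4 * η ^ 2) = (2 / η) ^ 2 := by
            have := pi_pos.ne'
            field_simp
            norm_num
          rw [e, sqrt_sq (by positivity)]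
  have h2 : ∫ w, ‖X w‖ ^ 2 ∂(gm L) ≤ 2 * ℓ / η := by
    calc ∫ w, ‖X w‖ ^ 2 ∂(gm L) ≤ ‖((∫ w, ‖X w‖ ^ 2 ∂(gm L) : ℝ) : ℂ)‖ := by
          rw [Complex.norm_real]
          exact le_abs_self _
      _ ≤ ∫ p : ℝ × ℝ, exp (-(π / 4 * η ^ 2) * (p.1 - p.2) ^ 2) ∂(μ.prod μ) := by
          rw [hint]
          exact norm_integral_le_of_norm_le hEi (ae_of_all _ fun p => mean_le hJL h0 k k' hη hα hM (p.1 - p.2))
      _ = ∫ x, ∫ y, exp (-(π / 4 * η ^ 2) * (x - y) ^ 2) ∂μ ∂μ := integral_prod _ hEi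
      _ ≤ ∫ _x, 2 / η ∂μ := integral_mono hEi.integral_prod_left (integrable_const _) hin
      _ = 2 * ℓ / η := by
          rw [integral_const, hvol, smul_eq_mul]
          ring
  -- the first moment
  have hXi : Integrable (fun w => ‖X w‖) (gm L) :=
    Integrable.of_bound hXm.norm.aestronglyMeasurable ℓ (ae_of_all _ fun w => by rw [norm_norm]; exact hXb w)
  have hX2i : Integrable (fun w => ‖X w‖ ^ 2) (gm L) := by
    refine Integrable.of_bound (hXm.norm.pow 2).aestronglyMeasurable (ℓ ^ 2) (ae_of_all _ fun w => ?_)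
    rw [Real.norm_of_nonneg (by positivity)]
    exact pow_le_pow_left₀ (norm_nonneg _) (hXb w) 2
  apply Real.le_sqrt_of_sq_le
  refine le_trans ?_ h2
  set m := ∫ w, ‖X w‖ ∂(gm L) with hm
  have h3 : 0 ≤ ∫ w, (‖X w‖ - m) ^ 2 ∂(gm L) := integral_nonneg fun w => sq_nonneg _
  have h4 : ∫ w, (‖X w‖ - m) ^ 2 ∂(gm L) = ∫ w, ‖X w‖ ^ 2 ∂(gm L) - m ^ 2 := by
    have e : ∀ w, (‖X w‖ - m) ^ 2 = ‖X w‖ ^ 2 - (2 * m) * ‖X w‖ + m ^ 2 := fun w => by ring
    simp only [e]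
    have i1 : Integrable (fun w => (2 * m) * ‖X w‖) (gm L) := hXi.const_mul _
    have i2 : Integrable (fun w => ‖X w‖ ^ 2 - (2 * m) * ‖X w‖) (gm L) := hX2i.sub i1
    rw [integral_add i2 (integrable_const _), integral_sub hX2i i1, integral_const_mul, ← hm, integral_const]
    rw [probReal_univ, one_smul]
    ring
  rw [h4] at h3
  linarith

end Pool.Agent.Helper8.MM
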